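import Pool.Agent.W670.TL.Defs

/-! Project TL (helper670): few primes are powers in a number field. -/

set_option autoImplicit false

namespace Pool.Agent.W101.TL

open NumberField Pool.Agent.W670.TL

theorem npr (h1 : S_RAM) : S_NPR := by
  classical
  intro M _ _ q Z Y hq hY
  set F : Finset ℕ := (Finset.range (Z + 1)).filter
    (fun p => p.Prime ∧ ∃ a : M, a ^ q = (p : M)) with hF
  have hset : {p : ℕ | p.Prime ∧ p ≤ Z ∧ ∃ a : M, a ^ q = (p : M)} = (F : Set ℕ) := by
    ext p
    simp only [Set.mem_ofPred_eq, hF, Finset.coe_filter, Finset.mem_range]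
    constructor
    · rintro ⟨a, b, c⟩; exact ⟨by omega, a, c⟩
    · rintro ⟨a, b, c⟩; exact ⟨b, by omega, c⟩
  rw [hset, Set.ncard_coe_finset]
  have hdvd : (∏ p ∈ F, p) ∣ (discr M).natAbs := by
    refine Finset.prod_primes_dvd _ (fun p hp => ?_) (fun p hp => ?_)
    · exact (Finset.mem_filter.1 hp).2.1.prime
    · obtain ⟨a, ha⟩ := (Finset.mem_filter.1 hp).2.2
      have := h1 M q p a (Finset.mem_filter.1 hp).2.1 hq ha
      exact Int.natCast_dvd.1 this
  have hne : (discr M).natAbs ≠ 0 := Int.natAbs_ne_zero.2 (discr_ne_zero M)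
  have hle : 2 ^ F.card ≤ (discr M).natAbs := by
    refine le_trans ?_ (Nat.le_of_dvd (Nat.pos_of_ne_zero hne) hdvd)
    rw [← Finset.prod_const]
    exact Finset.prod_le_prod' fun p hp => (Finset.mem_filter.1 hp).2.1.two_le
  have hD : D M = ((discr M).natAbs : ℝ) := by
    rw [D, Nat.cast_natAbs, Int.cast_abs]
  have hle' : (2 : ℝ) ^ F.card ≤ Y := by
    refine le_trans ?_ hY
    rw [hD]; exact_mod_cast hle
  have h2 : (0 : ℝ) < 2 ^ F.card := by positivity
  rw [Real.le_logb_iff_rpow_le (by norm_num) (lt_of_lt_of_le h2 hle'), Real.rpow_natCast]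
  exact hle'

end Pool.Agent.W101.TL
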